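import Pool.Agent.Helper35.SHQ.Sheet

set_option autoImplicit false

namespace SHQ

theorem sem_fix (l : W) : (fix l).lang = {l} := by
  induction l with
  | nil => rfl
  | cons a l ih => simp [fix, Tr.lang, ih]

theorem sem_th1 : ∀ p g : Fin 3, g ≠ p → g + 1 ≠ p → g + 1 = th p g := by decide

theorem sem_th2 : ∀ p g : Fin 3, g ≠ p → g + 2 ≠ p → g + 2 = th p g := by decide

theorem st_SEM (hS : ST_SHF) : ST_SEM := by
  intro p g hg y
  obtain ⟨h1, _, h3, _⟩ := hS
  have hr : ∀ x, Shf x [] x := fun x => h1 _ _ _ (h3 x)
  induction y with
  | nil =>
    refine ⟨?_, fun h => absurd h (by simp)⟩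
    intro d hd
    have hd' : d = [] := hd
    rw [hd']
    exact Shf.left p Shf.nil
  | cons b y ih =>
    obtain ⟨ih1, ih2⟩ := ih
    cases b with
    | true =>
      constructor
      · rintro d ⟨u, hu, rfl⟩
        exact Shf.right p (ih1 u hu)
      · intro _ d hd
        exact ih1 d hd
    | false =>
      have key : Shf (p :: th p g :: y.map (lt p (th p g))) [p]
          (th p g :: y.map (lt p (th p g))) := Shf.left p (hr _)
      have hmem : true ∈ false :: y → true ∈ y := by
        intro h
        rcases List.mem_cons.1 h with h | h
        · exact absurd h (by decide)
        · exact h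
      constructor
      · intro d hd
        show Shf (p :: th p g :: y.map (lt p (th p g))) [p] d
        by_cases hy : true ∈ y
        · have hd' : d ∈ (Tr.two g
              (if g + 1 = p then .one (th p g) (D2 p g y).2 else fix (y.map (lt p (th p g))))
              (if g + 2 = p then .one (th p g) (D2 p g y).2
                else fix (y.map (lt p (th p g))))).lang := by
            have e : (D2 p g (false :: y)).1 = Tr.two g
              (if g + 1 = p then .one (th p g) (D2 p g y).2 else fix (y.map (lt p (th p g))))
              (if g + 2 = p then .one (th p g) (D2 p g y).2
                else fix (y.map (lt p (th p g)))) := by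
              simp only [D2, if_pos hy]
            rw [← e]; exact hd
          rcases hd' with ⟨u, hu, rfl⟩ | ⟨u, hu, rfl⟩
          · by_cases hp : g + 1 = p
            · rw [if_pos hp] at hu
              obtain ⟨u', hu', rfl⟩ := hu
              show Shf _ _ ((g + 1) :: th p g :: u')
              rw [hp]
              exact Shf.right p (Shf.right _ (ih2 hy u' hu'))
            · rw [if_neg hp, sem_fix] at hu
              have hu' : u = y.map (lt p (th p g)) := hu
              show Shf _ _ ((g + 1) :: u)
              rw [hu', sem_th1 p g hg hp]
              exact key
          · by_cases hp : g + 2 = p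
            · rw [if_pos hp] at hu
              obtain ⟨u', hu', rfl⟩ := hu
              show Shf _ _ ((g + 2) :: th p g :: u')
              rw [hp]
              exact Shf.right p (Shf.right _ (ih2 hy u' hu'))
            · rw [if_neg hp, sem_fix] at hu
              have hu' : u = y.map (lt p (th p g)) := hu
              show Shf _ _ ((g + 2) :: u)
              rw [hu', sem_th2 p g hg hp]
              exact key
        · have e : (D2 p g (false :: y)).1 = Tr.one (th p g) (fix (y.map (lt p (th p g)))) := by
            simp only [D2, if_neg hy]
          rw [e] at hd
          obtain ⟨u, hu, rfl⟩ := hd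
          rw [sem_fix] at hu
          have hu' : u = y.map (lt p (th p g)) := hu
          show Shf _ _ (th p g :: u)
          rw [hu']
          exact key
      · intro hy d hd
        have hy' := hmem hy
        obtain ⟨u, hu, rfl⟩ := hd
        exact Shf.right _ (ih2 hy' u hu)

end SHQ
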